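import Pool.Agent.H90.CS.Targets
import Pool.Agent.H90.LCL.HP

/-!
# Many admissible numbers with small representations (row POS of lcs, helper10)
-/

set_option autoImplicit false

namespace Pool.Agent.H10.LCS

open Finset Pool.Agent.H44.MS Pool.Agent.H90.LC Pool.Agent.H90.CS Pool.Agent.H90.LCL

theorem mem_GF {R N m : ℕ} : m ∈ GF R N ↔ (1 ≤ m ∧ m ≤ N) ∧ Gd R m := by
  unfold GF
  simp only [mem_filter, mem_Icc]

theorem gd_fac {R : ℕ} : ∀ m : ℕ, 0 < m → Gd R m →
    m % 4 = 1 ∧ ∃ a b : ℕ, m = a ^ 2 + b ^ 2 := by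
  intro m
  induction m using Nat.strong_induction_on with
  | _ m ih =>
    intro hm h
    by_cases h1 : m = 1
    · subst h1
      exact ⟨rfl, 1, 0, rfl⟩
    · have hp : m.minFac.Prime := Nat.minFac_prime h1
      obtain ⟨k, hk⟩ := Nat.minFac_dvd m
      have hk0 : 0 < k := by
        rcases Nat.eq_zero_or_pos k with h2 | h2
        · rw [h2, mul_zero] at hk
          omega
        · exact h2
      have hkm : k < m := by
        have h2 := hp.two_le
        calc k < 2 * k := by omega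
          _ ≤ m.minFac * k := Nat.mul_le_mul_right k h2
          _ = m := hk.symm
      obtain ⟨i1, a, b, i2⟩ := ih k hkm hk0 fun p hp' hpk =>
        h p hp' (hpk.trans ⟨m.minFac, by rw [mul_comm]; exact hk⟩)
      obtain ⟨j1, -⟩ := h m.minFac hp (Nat.minFac_dvd m)
      have : Fact m.minFac.Prime := ⟨hp⟩
      obtain ⟨c, d, j2⟩ := Nat.Prime.sq_add_sq (p := m.minFac) (by omega)
      obtain ⟨r, s, hrs⟩ := Nat.sq_add_sq_mul j2.symm i2
      refine ⟨?_, r, s, ?_⟩
      · rw [hk, Nat.mul_mod, j1, i1]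
      · rw [← hrs]
        exact hk

theorem WR_pos (R : ℕ) : 0 < WR R := by
  unfold WR
  refine Nat.mul_pos (by norm_num) (Finset.prod_pos fun p hp => ?_)
  exact (mem_filter.1 hp).2.pos

theorem WR_even (R : ℕ) : 2 ∣ WR R := Dvd.intro _ rfl

/-- the set of the numbers `m + (W t) ^ 2` -/
noncomputable def At (R N t : ℕ) : Finset ℕ := by
  classical
  exact ((GF R N).filter (fun m => Squarefree (m + (WR R * t) ^ 2))).image
    (fun m => m + (WR R * t) ^ 2)

theorem mem_At {R N t n : ℕ} : n ∈ At R N t ↔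
    ∃ m, m ∈ GF R N ∧ Squarefree (m + (WR R * t) ^ 2) ∧ m + (WR R * t) ^ 2 = n := by
  unfold At
  simp only [mem_image, mem_filter, and_assoc]

theorem card_At (R N t : ℕ) : (At R N t).card =
    ((GF R N).filter (fun m => Squarefree (m + (WR R * t) ^ 2))).card := by
  classical
  unfold At
  rw [card_image_of_injective _ (add_left_injective _)]

theorem card_pair (R N t s : ℕ) (hst : s < t) : (At R N t ∩ At R N s).card ≤
    ((GF R N).filter (fun m => m + WR R ^ 2 * (t ^ 2 - s ^ 2) ∈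
      GF R (N + WR R ^ 2 * (t ^ 2 - s ^ 2)))).card := by
  classical
  have hsq : s ^ 2 ≤ t ^ 2 := Nat.pow_le_pow_left hst.le 2
  have hh : (WR R * t) ^ 2 = (WR R * s) ^ 2 + WR R ^ 2 * (t ^ 2 - s ^ 2) := by
    rw [mul_pow, mul_pow, ← Nat.mul_add, Nat.add_sub_cancel' hsq]
  refine (card_le_card (t := ((GF R N).filter (fun m => m + WR R ^ 2 * (t ^ 2 - s ^ 2) ∈
      GF R (N + WR R ^ 2 * (t ^ 2 - s ^ 2)))).image (fun m => m + (WR R * t) ^ 2)) ?_).trans
    card_image_le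
  intro n hn
  rw [mem_inter, mem_At, mem_At] at hn
  obtain ⟨⟨m, hm, -, rfl⟩, m', hm', -, he⟩ := hn
  rw [mem_image]
  refine ⟨m, mem_filter.2 ⟨hm, ?_⟩, rfl⟩
  have h1 : m' = m + WR R ^ 2 * (t ^ 2 - s ^ 2) := by omega
  rw [← h1]
  rw [mem_GF] at hm' ⊢
  exact ⟨⟨hm'.1.1, hm'.1.2.trans (Nat.le_add_right _ _)⟩, hm'.2⟩

/-- the elements of the union are admissible -/
theorem adm_At {R N t n : ℕ} (h : n ∈ At R N t) : Adm n ∧
    ∃ a b : ℕ, n = a ^ 2 + b ^ 2 + (WR R * t) ^ 2 := by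
  rw [mem_At] at h
  obtain ⟨m, hm, hsf, rfl⟩ := h
  rw [mem_GF] at hm
  obtain ⟨h1, a, b, h2⟩ := gd_fac m (by omega) hm.2
  obtain ⟨k, hk⟩ := (WR_even R).mul_right t
  have h4 : (WR R * t) ^ 2 % 4 = 0 := by
    rw [hk, mul_pow]
    exact Nat.mul_mod_right _ _
  refine ⟨⟨?_, hsf, by omega⟩, a, b, by rw [← h2]⟩
  rw [Nat.odd_iff]
  omega

/-- large logarithms -/
theorem ev_log (K : ℝ) : ∃ N₀ : ℕ, ∀ N : ℕ, N₀ ≤ N → K ≤ √(Real.log N) := by
  have h := (Real.tendsto_log_atTop.comp tendsto_natCast_atTop_atTop).eventually_ge_atTop (K ^ 2)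
  obtain ⟨N₀, h0⟩ := Filter.eventually_atTop.1 h
  exact ⟨N₀, fun N hN => Real.le_sqrt_of_sq_le (h0 N hN)⟩

/-- the union is large -/
theorem union_large (hBON : T_BON) (R N T : ℕ) (c1 C3 C4 κ lam L : ℝ) (hC3 : 0 < C3)
    (hC4 : 0 < C4) (hL : 0 < L) (hL2 : L ^ 2 = Real.log N) (hκ : 0 < κ) (hl : 0 < lam)
    (hl1 : lam ≤ 1) (hc1 : 0 < c1)
    (hκ1 : κ ≤ c1 / (2 * (C3 * hp (WR R ^ 2) * C4)))
    (hT1 : (T : ℝ) ≤ κ * lam * L) (hT2 : κ * lam * L / 2 ≤ T)
    (hS : ∀ t ∈ Icc 1 T, c1 * N / L ≤ ((At R N t).card : ℝ))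
    (hP : ∀ t ∈ Icc 1 T, ∀ s ∈ Icc 1 (t - 1), ((At R N t ∩ At R N s).card : ℝ) ≤
      C3 * N * (hp (WR R ^ 2) * hp (t ^ 2 - s ^ 2)) / Real.log N)
    (hH : ∑ t ∈ Icc 1 T, ∑ s ∈ Icc 1 (t - 1), hp (t ^ 2 - s ^ 2) ≤ C4 * (T : ℝ) ^ 2) :
    κ * lam * c1 * N / 4 ≤ (((Icc 1 T).biUnion (At R N)).card : ℝ) := by
  have hb := hBON T (At R N)
  have hb' : (∑ t ∈ Icc 1 T, ((At R N t).card : ℝ)) ≤ (((Icc 1 T).biUnion (At R N)).card : ℝ) +
      ∑ t ∈ Icc 1 T, ∑ s ∈ Icc 1 (t - 1), ((At R N t ∩ At R N s).card : ℝ) := by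
    exact_mod_cast hb
  have hh := one_le_hp (WR R ^ 2)
  have h1 : (T : ℝ) * (c1 * N / L) ≤ ∑ t ∈ Icc 1 T, ((At R N t).card : ℝ) := by
    have := card_nsmul_le_sum (Icc 1 T) (fun t => ((At R N t).card : ℝ)) (c1 * N / L) hS
    rwa [Nat.card_Icc, Nat.add_sub_cancel, nsmul_eq_mul] at this
  have h2 : ∑ t ∈ Icc 1 T, ∑ s ∈ Icc 1 (t - 1), ((At R N t ∩ At R N s).card : ℝ) ≤
      C3 * N * hp (WR R ^ 2) / L ^ 2 * (C4 * (T : ℝ) ^ 2) := by
    refine (sum_le_sum fun t ht => sum_le_sum fun s hs => hP t ht s hs).trans ?_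
    have e : ∑ t ∈ Icc 1 T, ∑ s ∈ Icc 1 (t - 1),
        C3 * N * (hp (WR R ^ 2) * hp (t ^ 2 - s ^ 2)) / Real.log N =
        C3 * N * hp (WR R ^ 2) / L ^ 2 *
          ∑ t ∈ Icc 1 T, ∑ s ∈ Icc 1 (t - 1), hp (t ^ 2 - s ^ 2) := by
      rw [mul_sum]
      refine sum_congr rfl fun t _ => ?_
      rw [mul_sum]
      refine sum_congr rfl fun s _ => ?_
      rw [hL2]
      ring
    rw [e]
    exact mul_le_mul_of_nonneg_left hH (by positivity)
  have h3 : C3 * N * hp (WR R ^ 2) / L ^ 2 * (C4 * (T : ℝ) ^ 2) ≤ (T : ℝ) * (c1 * N / L) / 2 := by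
    have hC2 : 0 < C3 * hp (WR R ^ 2) * C4 := by positivity
    have h4 : (C3 * hp (WR R ^ 2) * C4) * T ≤ c1 / 2 * L := by
      rw [le_div_iff₀ (by positivity)] at hκ1
      have h5 : κ * lam * L ≤ κ * L := by
        have : κ * lam ≤ κ * 1 := mul_le_mul_of_nonneg_left hl1 hκ.le
        rw [mul_one] at this
        exact mul_le_mul_of_nonneg_right this hL.le
      calc (C3 * hp (WR R ^ 2) * C4) * T ≤ (C3 * hp (WR R ^ 2) * C4) * (κ * L) :=
            mul_le_mul_of_nonneg_left (hT1.trans h5) hC2.le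
        _ = (κ * (2 * (C3 * hp (WR R ^ 2) * C4))) * L / 2 := by ring
        _ ≤ c1 * L / 2 := by
            have := mul_le_mul_of_nonneg_right hκ1 hL.le
            linarith
        _ = c1 / 2 * L := by ring
    calc C3 * N * hp (WR R ^ 2) / L ^ 2 * (C4 * (T : ℝ) ^ 2)
        = (N * T / L ^ 2) * ((C3 * hp (WR R ^ 2) * C4) * T) := by ring
      _ ≤ (N * T / L ^ 2) * (c1 / 2 * L) := mul_le_mul_of_nonneg_left h4 (by positivity)
      _ = (T : ℝ) * (c1 * N / L) / 2 := by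
          field_simp
  have h4 : κ * lam * L / 2 * (c1 * N / L) ≤ T * (c1 * N / L) :=
    mul_le_mul_of_nonneg_right hT2 (by positivity)
  have h5 : κ * lam * L / 2 * (c1 * N / L) = κ * lam * c1 * N / 2 := by
    field_simp
  linarith

/-- POS: many admissible numbers with small representations -/
theorem pf_POS (hSQT : T_SQT) (hGPR : T_GPR) (hHPS : T_HPS) (hBON : T_BON) : T_POS := by
  classical
  obtain ⟨c1, hc1, R, hR, N1, hSQT⟩ := hSQT
  obtain ⟨C3, hC3, N2, hGPR⟩ := hGPR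
  obtain ⟨C4, hC4, hHPS⟩ := hHPS
  have hW := WR_pos R
  have hW' : (0 : ℝ) < WR R := by exact_mod_cast hW
  have hh := one_le_hp (WR R ^ 2)
  obtain ⟨κ, hκ, hκ1, hκ2⟩ : ∃ κ : ℝ, 0 < κ ∧ κ ≤ c1 / (2 * (C3 * hp (WR R ^ 2) * C4)) ∧
      κ ≤ 1 / (4 * WR R) :=
    ⟨min (c1 / (2 * (C3 * hp (WR R ^ 2) * C4))) (1 / (4 * WR R)),
      lt_min (by positivity) (by positivity), min_le_left _ _, min_le_right _ _⟩
  refine ⟨κ * c1 / 32, by positivity, fun lam hl hl1 => ?_⟩
  obtain ⟨N3, hN3⟩ := ev_log (2 / (κ * lam))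
  obtain ⟨N4, hN4⟩ := exists_nat_ge ((2 / (κ * lam * c1 / 32)) ^ 2)
  refine ⟨2 * (N1 + N2 + N3 + 10) + N4, fun N hN => ?_⟩
  have n1 : N1 ≤ N / 2 := by omega
  have n2 : N2 ≤ N / 2 := by omega
  have n3 : N3 ≤ N / 2 := by omega
  have n5 : 10 ≤ N / 2 := by omega
  have n6 : N / 2 * 2 ≤ N := Nat.div_mul_le_self N 2
  have n7 : N ≤ 4 * (N / 2) := by omega
  have n4 : N4 ≤ N := by omega
  generalize hX : N / 2 = X at *
  have hX0 : (10 : ℝ) ≤ X := by exact_mod_cast n5
  have hlogX : 0 < Real.log X := Real.log_pos (by linarith)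
  have hL : 0 < √(Real.log X) := Real.sqrt_pos.2 hlogX
  have hL2 : √(Real.log X) ^ 2 = Real.log X := Real.sq_sqrt hlogX.le
  have hKL : 2 ≤ κ * lam * √(Real.log X) := by
    have h1 := hN3 X n3
    rwa [div_le_iff₀ (by positivity), mul_comm] at h1
  have hlogle : Real.log X ≤ X := (Real.log_le_sub_one_of_pos (by linarith)).trans (by linarith)
  obtain ⟨T, hT⟩ : ∃ T : ℕ, T = ⌊κ * lam * √(Real.log X)⌋₊ := ⟨_, rfl⟩
  have hT1 : (T : ℝ) ≤ κ * lam * √(Real.log X) := by
    rw [hT]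
    exact Nat.floor_le (by positivity)
  have hT2 : κ * lam * √(Real.log X) / 2 ≤ T := by
    have h1 := Nat.lt_floor_add_one (κ * lam * √(Real.log X))
    rw [← hT] at h1
    linarith
  have hWT : ((WR R : ℝ)) * T ≤ lam * √(Real.log X) / 4 := by
    rw [le_div_iff₀ (by positivity)] at hκ2
    calc ((WR R : ℝ)) * T ≤ WR R * (κ * lam * √(Real.log X)) :=
          mul_le_mul_of_nonneg_left hT1 hW'.le
      _ = (κ * (4 * WR R)) * (lam * √(Real.log X)) / 4 := by ring
      _ ≤ 1 * (lam * √(Real.log X)) / 4 := by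
          have := mul_le_mul_of_nonneg_right hκ2 (by positivity : 0 ≤ lam * √(Real.log X))
          linarith
      _ = lam * √(Real.log X) / 4 := by ring
  have hWt : ∀ t, t ≤ T → (WR R * t : ℝ) ≤ lam * √(Real.log X) / 4 := by
    intro t ht
    refine le_trans ?_ hWT
    exact mul_le_mul_of_nonneg_left (by exact_mod_cast ht) hW'.le
  have hsq : ∀ t, t ≤ T → ((WR R * t : ℕ) : ℝ) ^ 2 ≤ X / 16 := by
    intro t ht
    have h1 := hWt t ht
    have h2 := pow_le_pow_left₀ (by positivity) h1 2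
    have h3 : (lam * √(Real.log X) / 4) ^ 2 = lam ^ 2 * Real.log X / 16 := by
      rw [div_pow, mul_pow, hL2]
      norm_num
    rw [h3] at h2
    have h4 : lam ^ 2 ≤ 1 := by nlinarith
    have h5 : lam ^ 2 * Real.log X ≤ 1 * Real.log X := mul_le_mul_of_nonneg_right h4 hlogX.le
    push_cast
    linarith
  have hU := union_large hBON R X T c1 C3 C4 κ lam _ hC3 hC4 hL hL2 hκ hl hl1 hc1 hκ1 hT1 hT2
    (fun t ht => by
      rw [card_At]
      refine hSQT X (WR R * t) n1 (dvd_mul_right _ _) ?_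
      have h1 := hsq t (mem_Icc.1 ht).2
      have h2 : (((WR R * t) ^ 2 : ℕ) : ℝ) ≤ X := by
        push_cast
        push_cast at h1
        linarith
      exact_mod_cast h2)
    (fun t ht s hs => by
      rw [mem_Icc] at ht hs
      have hst : s < t := by omega
      have hd : 0 < t ^ 2 - s ^ 2 := Nat.sub_pos_of_lt (Nat.pow_lt_pow_left hst (by norm_num))
      have hd2 : 0 < WR R ^ 2 := Nat.pow_pos hW
      have h1 := hGPR X R (WR R ^ 2 * (t ^ 2 - s ^ 2)) n2 (Nat.mul_pos hd2 hd)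
      refine (Nat.cast_le.2 (card_pair R X t s hst)).trans (h1.trans ?_)
      have h3 := hp_mul hd2 hd
      exact div_le_div_of_nonneg_right (mul_le_mul_of_nonneg_left h3 (by positivity)) hlogX.le)
    (hHPS T)
  -- the union is contained in the set
  have hsub : (Icc 1 T).biUnion (At R X) ⊆ AsF N lam ∪ range (Nat.sqrt N + 1) := by
    intro n hn
    rw [mem_biUnion] at hn
    obtain ⟨t, ht, hnt⟩ := hn
    rw [mem_Icc] at ht
    rw [mem_union, mem_range, Nat.lt_succ_iff]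
    by_cases hns : n ≤ Nat.sqrt N
    · exact Or.inr hns
    · left
      rw [not_le, Nat.sqrt_lt] at hns
      obtain ⟨hadm, a, b, hab⟩ := adm_At hnt
      have hnN : n < N := by
        rw [mem_At] at hnt
        obtain ⟨m, hm, -, rfl⟩ := hnt
        rw [mem_GF] at hm
        have h1 := hsq t ht.2
        have h2 : ((m + (WR R * t) ^ 2 : ℕ) : ℝ) < N := by
          push_cast
          push_cast at h1
          have h3 : (m : ℝ) ≤ X := by exact_mod_cast hm.1.2
          have h4 : (X : ℝ) * 2 ≤ N := by exact_mod_cast n6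
          linarith
        exact_mod_cast h2
      unfold AsF
      rw [mem_filter, mem_range]
      refine ⟨hnN, hadm, (a : ℤ), (b : ℤ), ((WR R * t : ℕ) : ℤ), ?_, ?_⟩
      · rw [hab]
        push_cast
        ring
      · have h1 := hWt t ht.2
        have h2 : |(((WR R * t : ℕ) : ℤ) : ℝ)| = WR R * t := by
          push_cast
          exact abs_of_nonneg (by positivity)
        rw [h2]
        refine h1.trans ?_
        have hn0 : (1 : ℝ) < n := by
          have h3 : 1 < n := by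
            by_contra hcon
            have h4 : n ≤ 1 := not_lt.1 hcon
            have h5 : n * n ≤ 1 * 1 := Nat.mul_le_mul h4 h4
            omega
          exact_mod_cast h3
        have h3 : Real.log X ≤ 4 * Real.log n := by
          have h4 : Real.log X ≤ Real.log ((n : ℝ) * n) := by
            refine Real.log_le_log (by linarith) ?_
            have h5 : X ≤ n * n := by omega
            exact_mod_cast h5
          rw [Real.log_mul (by positivity) (by positivity)] at h4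
          have h6 := Real.log_pos hn0
          linarith
        have h4 : √(Real.log X) ≤ 2 * √(Real.log n) := by
          refine Real.sqrt_le_iff.2 ⟨by positivity, ?_⟩
          rw [mul_pow, Real.sq_sqrt (Real.log_pos hn0).le]
          linarith
        have h5 := mul_le_mul_of_nonneg_left h4 hl.le
        have h6 : 0 ≤ lam * √(Real.log n) := by positivity
        linarith
  have hcard := (card_le_card hsub).trans (card_union_le _ _)
  rw [card_range] at hcard
  have hcard' : (((Icc 1 T).biUnion (At R X)).card : ℝ) ≤ (AsF N lam).card + (Nat.sqrt N + 1) := by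
    exact_mod_cast hcard
  have hNpos : (1 : ℝ) ≤ N := by
    have : 1 ≤ N := by omega
    exact_mod_cast this
  have hs1 : (Nat.sqrt N : ℝ) ≤ √(N : ℝ) := Real.nat_sqrt_le_real_sqrt
  have hs2 : (1 : ℝ) ≤ √(N : ℝ) := Real.one_le_sqrt.2 hNpos
  have hδ : 0 < κ * lam * c1 / 32 := by positivity
  have hs3 : 2 * √(N : ℝ) ≤ κ * lam * c1 / 32 * N := by
    have h1 : (2 / (κ * lam * c1 / 32)) ^ 2 ≤ N := hN4.trans (by exact_mod_cast n4)
    have h2 : 2 / (κ * lam * c1 / 32) ≤ √(N : ℝ) := Real.le_sqrt_of_sq_le h1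
    rw [div_le_iff₀ hδ] at h2
    have h3 := mul_le_mul_of_nonneg_right h2 (Real.sqrt_nonneg (N : ℝ))
    have h4 : √(N : ℝ) * √(N : ℝ) = N := Real.mul_self_sqrt (by linarith)
    calc 2 * √(N : ℝ) ≤ √(N : ℝ) * (κ * lam * c1 / 32) * √(N : ℝ) := h3
      _ = κ * lam * c1 / 32 * (√(N : ℝ) * √(N : ℝ)) := by ring
      _ = κ * lam * c1 / 32 * N := by rw [h4]
  have hNX : (N : ℝ) ≤ 4 * X := by exact_mod_cast n7
  have hfin : κ * lam * c1 * N ≤ κ * lam * c1 * (4 * X) :=
    mul_le_mul_of_nonneg_left hNX (by positivity)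
  linarith

end Pool.Agent.H10.LCS
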