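import Pool.Agent.H90.CS.Targets

/-!
# Sums of two squares in arithmetic progressions (row TSQ of lcs, helper10)
-/

set_option autoImplicit false

namespace Pool.Agent.H10.LCS

open Finset Pool.Agent.H44.MS Pool.Agent.H90.LC Pool.Agent.H90.CS

theorem dec (M : ℕ) : ∀ g : ℕ, 0 < g → ∃ g1 g2 : ℕ, g = g1 * g2 ∧ Nat.Coprime g1 M ∧
    ∀ p : ℕ, p.Prime → p ∣ g2 → p ∣ M := by
  intro g
  induction g using Nat.strong_induction_on with
  | _ g ih =>
    intro hg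
    by_cases hc : Nat.Coprime g M
    · exact ⟨g, 1, (mul_one g).symm, hc, fun p hp h => absurd (Nat.dvd_one.1 h) hp.one_lt.ne'⟩
    · obtain ⟨p, hp, ⟨g', hg'⟩, h2⟩ := Nat.Prime.not_coprime_iff_dvd.1 hc
      have hg0 : 0 < g' := by
        rcases Nat.eq_zero_or_pos g' with h | h
        · rw [h, mul_zero] at hg'
          omega
        · exact h
      have hlt : g' < g := by
        have h3 := Nat.mul_le_mul_right g' hp.two_le
        omega
      obtain ⟨a, b, h3, h4, h5⟩ := ih g' hlt hg0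
      refine ⟨a, p * b, by rw [hg', h3]; ring, h4, fun q hq hqb => ?_⟩
      rcases (Nat.Prime.dvd_mul hq).1 hqb with h | h
      · rwa [(Nat.prime_dvd_prime_iff_eq hq hp).1 h]
      · exact h5 q hq h

theorem not_dvd_M2 (y p : ℕ) (hp : p.Prime) (h3 : p % 4 = 3) (hy : y < p) : ¬ p ∣ M2 y := by
  intro h
  unfold M2 at h
  rcases (Nat.Prime.dvd_mul hp).1 h with h | h
  · have h8 : (8 : ℕ) = 2 ^ 3 := by norm_num
    rw [h8] at h
    have := (Nat.prime_dvd_prime_iff_eq hp Nat.prime_two).1 (hp.dvd_of_dvd_pow h)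
    omega
  · obtain ⟨q, hq, hpq⟩ := (hp.prime.dvd_finsetProd_iff _).1 h
    unfold P3 at hq
    rw [mem_filter, mem_Icc] at hq
    have := (Nat.prime_dvd_prime_iff_eq hp hq.2.1).1 (hp.dvd_of_dvd_pow hpq)
    omega

theorem M2_pos (y : ℕ) : 0 < M2 y := by
  unfold M2
  refine Nat.mul_pos (by norm_num) (Finset.prod_pos fun p hp => ?_)
  unfold P3 at hp
  exact Nat.pow_pos (mem_filter.1 hp).2.1.pos

/-- the decomposition of a sum of two squares -/
theorem sq_dec (y m u v : ℕ) (hm : 0 < m) (h : m = u ^ 2 + v ^ 2) :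
    ∃ k m' : ℕ, 0 < k ∧ Nat.Coprime k (M2 y) ∧ m = k ^ 2 * m' ∧
      ∀ p : ℕ, p.Prime → p % 4 = 3 → y < p → ¬ p ∣ m' := by
  have hg : 0 < Nat.gcd u v := by
    rcases Nat.eq_zero_or_pos (Nat.gcd u v) with h1 | h1
    · rw [Nat.gcd_eq_zero_iff] at h1
      rw [h1.1, h1.2] at h
      omega
    · exact h1
  obtain ⟨u', v', hcop, hu, hv⟩ := Nat.exists_coprime u v
  obtain ⟨g1, g2, hg12, hc, hdiv⟩ := dec (M2 y) _ hg
  have hg1 : 0 < g1 := by
    rcases Nat.eq_zero_or_pos g1 with h1 | h1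
    · rw [h1, zero_mul] at hg12
      omega
    · exact h1
  refine ⟨g1, g2 ^ 2 * (u' ^ 2 + v' ^ 2), hg1, hc, ?_, ?_⟩
  · have h1 : m = (Nat.gcd u v) ^ 2 * (u' ^ 2 + v' ^ 2) := by
      rw [h]
      nth_rewrite 1 [hu]
      nth_rewrite 2 [hv]
      ring
    rw [h1, hg12]
    ring
  · intro p hp hp3 hyp hdvd
    rcases (Nat.Prime.dvd_mul hp).1 hdvd with h1 | h1
    · exact not_dvd_M2 y p hp hp3 hyp (hdiv p hp (hp.dvd_of_dvd_pow h1))
    · have h2 := ZMod.isSquare_neg_one_of_eq_sq_add_sq_of_coprime rfl hcop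
      refine Nat.mod_four_ne_three_of_mem_primeFactors_of_isSquare_neg_one
        (Nat.mem_primeFactors.2 ⟨hp, h1, fun h4 => ?_⟩) h2 hp3
      have h5 : u' = 0 ∧ v' = 0 := by
        rw [Nat.add_eq_zero_iff] at h4
        exact ⟨pow_eq_zero_iff (two_ne_zero) |>.1 h4.1, pow_eq_zero_iff (two_ne_zero) |>.1 h4.2⟩
      rw [h5.1, h5.2] at hcop
      exact absurd hcop (by decide)

/-- the numbers with the square `k ^ 2` -/
noncomputable def Sk (y N b k : ℕ) : Finset ℕ := by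
  classical
  exact (Icc 1 N).filter (fun m => m ≡ b [MOD M2 y] ∧ ∃ m' : ℕ, m = k ^ 2 * m' ∧
    ∀ p : ℕ, p.Prime → p % 4 = 3 → y < p → ¬ p ∣ m')

theorem mem_Sk {y N b k m : ℕ} : m ∈ Sk y N b k ↔ (1 ≤ m ∧ m ≤ N) ∧ m ≡ b [MOD M2 y] ∧
    ∃ m' : ℕ, m = k ^ 2 * m' ∧ ∀ p : ℕ, p.Prime → p % 4 = 3 → y < p → ¬ p ∣ m' := by
  unfold Sk
  simp only [mem_filter, mem_Icc]

/-- the primes of the sieve -/
def PP (y z : ℕ) : Finset ℕ := (Icc 1 z).filter (fun p => p.Prime ∧ p % 4 = 3 ∧ y < p)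

theorem mem_PP {y z p : ℕ} : p ∈ PP y z ↔ (1 ≤ p ∧ p ≤ z) ∧ p.Prime ∧ p % 4 = 3 ∧ y < p := by
  unfold PP
  rw [mem_filter, mem_Icc]

/-- the class to be sieved out -/
def Om (M r p : ℕ) : Finset ℕ := (range p).filter (fun t => p ∣ r + M * t)

theorem card_Om (M r p : ℕ) (hp : p.Prime) (hM : ¬ p ∣ M) : (Om M r p).card = 1 := by
  have : Fact p.Prime := ⟨hp⟩
  rw [card_eq_one]
  have hM' : (M : ZMod p) ≠ 0 := by
    rwa [Ne, ZMod.natCast_eq_zero_iff]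
  refine ⟨(-(r : ZMod p) / (M : ZMod p)).val, ?_⟩
  ext t
  unfold Om
  rw [mem_filter, mem_range, mem_singleton]
  constructor
  · rintro ⟨h1, h2⟩
    rw [← ZMod.natCast_eq_zero_iff] at h2
    push_cast at h2
    have h3 : (t : ZMod p) = -(r : ZMod p) / (M : ZMod p) := by
      rw [eq_div_iff hM']
      linear_combination h2
    rw [← h3, ZMod.val_natCast, Nat.mod_eq_of_lt h1]
  · rintro rfl
    refine ⟨ZMod.val_lt _, ?_⟩
    rw [← ZMod.natCast_eq_zero_iff]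
    push_cast
    rw [ZMod.natCast_zmod_val]
    field_simp
    ring

theorem card_Sk (y N b k z : ℕ) (hk : 0 < k) (hc : Nat.Coprime k (M2 y)) : ∃ r : ℕ,
    (Sk y N b k).card ≤ ((range (N / (k ^ 2 * M2 y) + 1)).filter
      (fun t => ∀ p ∈ PP y z, t % p ∉ Om (M2 y) r p)).card := by
  classical
  have hM := M2_pos y
  rcases (Sk y N b k).eq_empty_or_nonempty with h | ⟨m₀, h⟩
  · exact ⟨0, by rw [h, card_empty]; exact Nat.zero_le _⟩
  · rw [mem_Sk] at h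
    obtain ⟨-, hb, m0, hm0, -⟩ := h
    refine ⟨m0 % M2 y, ?_⟩
    refine (card_le_card (t := ((range (N / (k ^ 2 * M2 y) + 1)).filter
      (fun t => ∀ p ∈ PP y z, t % p ∉ Om (M2 y) (m0 % M2 y) p)).image
        (fun t => k ^ 2 * (m0 % M2 y + M2 y * t))) ?_).trans card_image_le
    intro m hm
    rw [mem_Sk] at hm
    obtain ⟨⟨hm1, hmN⟩, hmb, m', hm', hgood⟩ := hm
    rw [mem_image]
    have hcong : m' ≡ m0 [MOD M2 y] := by
      have h1 : k ^ 2 * m' ≡ k ^ 2 * m0 [MOD M2 y] := by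
        rw [← hm', ← hm0]
        exact hmb.trans hb.symm
      refine Nat.ModEq.cancel_left_of_coprime ?_ h1
      exact (Nat.Coprime.pow_left 2 hc).symm
    have hr : m0 % M2 y + M2 y * (m' / M2 y) = m' := by
      have h1 : m' % M2 y = m0 % M2 y := hcong
      rw [← h1]
      exact Nat.mod_add_div m' (M2 y)
    refine ⟨m' / M2 y, mem_filter.2 ⟨?_, ?_⟩, ?_⟩
    · rw [mem_range, Nat.lt_succ_iff, Nat.le_div_iff_mul_le (by positivity)]
      calc m' / M2 y * (k ^ 2 * M2 y) = k ^ 2 * (m' / M2 y * M2 y) := by ring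
        _ ≤ k ^ 2 * m' := Nat.mul_le_mul_left _ (Nat.div_mul_le_self _ _)
        _ = m := hm'.symm
        _ ≤ N := hmN
    · intro p hp hcon
      rw [mem_PP] at hp
      unfold Om at hcon
      rw [mem_filter] at hcon
      refine hgood p hp.2.1 hp.2.2.1 hp.2.2.2 ?_
      rw [← hr]
      have h2 : m0 % M2 y + M2 y * (m' / M2 y % p) ≡ m0 % M2 y + M2 y * (m' / M2 y) [MOD p] :=
        Nat.ModEq.add_left _ (Nat.ModEq.mul_left _ (Nat.mod_modEq _ _))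
      exact (h2.dvd_iff dvd_rfl).1 hcon.2
    · rw [hr, ← hm']

/-- the covering -/
theorem TS_card (y N b K0 : ℕ) : ((TS y N b).card : ℝ) ≤ 1 +
    (∑ k ∈ (Icc 1 K0).filter (fun k => Nat.Coprime k (M2 y)), ((Sk y N b k).card : ℝ) +
      ∑ k ∈ (Ioc K0 (Nat.sqrt N)).filter (fun k => Nat.Coprime k (M2 y)),
        ((Sk y N b k).card : ℝ)) := by
  classical
  have hsub : TS y N b ⊆ {0} ∪ (((Icc 1 K0).filter (fun k => Nat.Coprime k (M2 y))).biUnion
      (Sk y N b) ∪ ((Ioc K0 (Nat.sqrt N)).filter (fun k => Nat.Coprime k (M2 y))).biUnion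
      (Sk y N b)) := by
    intro m hm
    unfold TS at hm
    simp only [mem_filter, mem_Icc] at hm
    obtain ⟨⟨-, hmN⟩, hb, u, v, huv⟩ := hm
    rcases Nat.eq_zero_or_pos m with h0 | h0
    · exact mem_union_left _ (mem_singleton.2 h0)
    · obtain ⟨k, m', hk, hc, hkm, hgood⟩ := sq_dec y m u v h0 huv
      have hmem : m ∈ Sk y N b k := mem_Sk.2 ⟨⟨h0, hmN⟩, hb, m', hkm, hgood⟩
      have hks : k ≤ Nat.sqrt N := by
        rw [Nat.le_sqrt]
        have h1 : 0 < m' := by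
          rcases Nat.eq_zero_or_pos m' with h2 | h2
          · rw [h2, mul_zero] at hkm
            omega
          · exact h2
        calc k * k = k ^ 2 * 1 := by ring
          _ ≤ k ^ 2 * m' := Nat.mul_le_mul_left _ h1
          _ = m := hkm.symm
          _ ≤ N := hmN
      refine mem_union_right _ (mem_union.2 ?_)
      rcases Nat.lt_or_ge K0 k with h1 | h1
      · exact Or.inr (mem_biUnion.2 ⟨k, mem_filter.2 ⟨mem_Ioc.2 ⟨h1, hks⟩, hc⟩, hmem⟩)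
      · exact Or.inl (mem_biUnion.2 ⟨k, mem_filter.2 ⟨mem_Icc.2 ⟨hk, h1⟩, hc⟩, hmem⟩)
  have h1 := (card_le_card hsub).trans (card_union_le _ _)
  have h2 := h1.trans (Nat.add_le_add_left ((card_union_le _ _).trans
    (Nat.add_le_add card_biUnion_le card_biUnion_le)) _)
  rw [card_singleton] at h2
  exact_mod_cast h2

theorem sum_sq1 (K : ℕ) : ∑ k ∈ Icc 1 K, (((k : ℝ)) ^ 2)⁻¹ ≤ 2 := by
  rcases Nat.eq_zero_or_pos K with h | h
  · subst h
    simp
  · have h1 := sum_Ioc_inv_sq_le_sub (α := ℝ) (k := 1) (n := K) (by norm_num) h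
    have h2 : Icc 1 K = insert 1 (Ioc 1 K) := by
      ext x
      rw [mem_insert, mem_Icc, mem_Ioc]
      omega
    rw [h2, sum_insert (by simp)]
    have h3 : (0 : ℝ) ≤ (K : ℝ)⁻¹ := by positivity
    norm_num at h1 ⊢
    linarith

theorem sum_sq2 (K n : ℕ) (hK : 0 < K) : ∑ k ∈ Ioc K n, (((k : ℝ)) ^ 2)⁻¹ ≤ (K : ℝ)⁻¹ := by
  rcases Nat.lt_or_ge n K with h | h
  · rw [Ioc_eq_empty (by omega), sum_empty]
    positivity
  · have h1 := sum_Ioc_inv_sq_le_sub (α := ℝ) (k := K) (n := n) (by omega) h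
    have h3 : (0 : ℝ) ≤ (n : ℝ)⁻¹ := by positivity
    linarith

theorem VA_eq (y z : ℕ) : ∏ p ∈ PP y z, (1 - 1 / (p : ℝ)) = VA (A3 y) z := by
  classical
  unfold PP VA
  rw [prod_filter]
  refine prod_congr rfl fun p _ => ?_
  unfold ic A3
  by_cases h : p.Prime ∧ p % 4 = 3 ∧ y < p
  · rw [if_pos h, if_pos h]
  · rw [if_neg h, if_neg h]
    simp

/-- the bound for the number of the elements -/
theorem TS_bd (hSIV : T_SIV) : ∃ A : ℕ, ∀ y N b z K0 : ℕ, 2 ≤ z → 0 < K0 →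
    ((TS y N b).card : ℝ) ≤ 4 * VA (A3 y) z * (N / M2 y) +
      (1 + K0 * (2 + (z : ℝ) ^ A) + (N / M2 y) / K0 + Nat.sqrt N) := by
  classical
  obtain ⟨A, hA⟩ := hSIV
  refine ⟨A, fun y N b z K0 hz hK0 => ?_⟩
  have hM : (0 : ℝ) < M2 y := by exact_mod_cast M2_pos y
  have hV0 : 0 ≤ VA (A3 y) z := by
    rw [← VA_eq]
    refine prod_nonneg fun p hp => ?_
    have h1 : (1 : ℝ) ≤ p := by exact_mod_cast (mem_PP.1 hp).1.1
    rw [sub_nonneg, div_le_one (by linarith)]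
    exact h1
  have hV1 : VA (A3 y) z ≤ 1 := by
    rw [← VA_eq]
    refine prod_le_one (fun p hp => ?_) fun p hp => ?_
    · have h1 : (1 : ℝ) ≤ p := by exact_mod_cast (mem_PP.1 hp).1.1
      rw [sub_nonneg, div_le_one (by linarith)]
      exact h1
    · have h1 : (0 : ℝ) ≤ 1 / p := by positivity
      linarith
  have hU : ∀ k : ℕ, 0 < k → ((N / (k ^ 2 * M2 y) + 1 : ℕ) : ℝ) ≤
      (N / M2 y : ℝ) * ((k : ℝ) ^ 2)⁻¹ + 1 := by
    intro k hk
    have h1 : ((N / (k ^ 2 * M2 y) : ℕ) : ℝ) ≤ (N : ℝ) / ((k ^ 2 * M2 y : ℕ) : ℝ) :=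
      Nat.cast_div_le
    push_cast at h1 ⊢
    have h2 : (N : ℝ) / ((k : ℝ) ^ 2 * M2 y) = (N / M2 y : ℝ) * ((k : ℝ) ^ 2)⁻¹ := by
      field_simp
    linarith
  have hB : ∀ k : ℕ, 0 < k → Nat.Coprime k (M2 y) → ((Sk y N b k).card : ℝ) ≤
      (N / M2 y : ℝ) * ((k : ℝ) ^ 2)⁻¹ + 1 := by
    intro k hk hc
    obtain ⟨r, hr⟩ := card_Sk y N b k 0 hk hc
    have h1 := hr.trans (card_filter_le _ _)
    rw [card_range] at h1
    exact (Nat.cast_le.2 h1).trans (hU k hk)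
  have hS : ∀ k : ℕ, 0 < k → Nat.Coprime k (M2 y) → ((Sk y N b k).card : ℝ) ≤
      2 * VA (A3 y) z * (N / M2 y : ℝ) * ((k : ℝ) ^ 2)⁻¹ + (2 + (z : ℝ) ^ A) := by
    intro k hk hc
    obtain ⟨r, hr⟩ := card_Sk y N b k z hk hc
    have h1 := hA z (N / (k ^ 2 * M2 y) + 1) (PP y z) (Om (M2 y) r) hz (by
      intro p hp
      rw [mem_PP] at hp
      have h2 := card_Om (M2 y) r p hp.2.1 (not_dvd_M2 y p hp.2.1 hp.2.2.1 hp.2.2.2)
      rw [h2]
      exact ⟨hp.2.1, hp.1.2, filter_subset _ _, le_rfl, by norm_num, hp.2.1.one_lt⟩)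
    have h3 : ∏ p ∈ PP y z, (1 - ((Om (M2 y) r p).card : ℝ) / p) = VA (A3 y) z := by
      rw [← VA_eq]
      refine prod_congr rfl fun p hp => ?_
      rw [mem_PP] at hp
      rw [card_Om (M2 y) r p hp.2.1 (not_dvd_M2 y p hp.2.1 hp.2.2.1 hp.2.2.2), Nat.cast_one]
    rw [h3] at h1
    refine (Nat.cast_le.2 hr).trans (h1.trans ?_)
    have h4 := hU k hk
    have h5 := mul_le_mul_of_nonneg_right h4 hV0
    have h6 : 2 * ((N / (k ^ 2 * M2 y) + 1 : ℕ) : ℝ) * VA (A3 y) z =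
        2 * (((N / (k ^ 2 * M2 y) + 1 : ℕ) : ℝ) * VA (A3 y) z) := by ring
    rw [h6]
    linarith
  have hfin := TS_card y N b K0
  have h1 : ∑ k ∈ (Icc 1 K0).filter (fun k => Nat.Coprime k (M2 y)), ((Sk y N b k).card : ℝ) ≤
      2 * VA (A3 y) z * (N / M2 y : ℝ) * 2 + K0 * (2 + (z : ℝ) ^ A) := by
    calc _ ≤ ∑ k ∈ (Icc 1 K0).filter (fun k => Nat.Coprime k (M2 y)),
          (2 * VA (A3 y) z * (N / M2 y : ℝ) * ((k : ℝ) ^ 2)⁻¹ + (2 + (z : ℝ) ^ A)) :=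
          sum_le_sum fun k hk => by
            rw [mem_filter, mem_Icc] at hk
            exact hS k hk.1.1 hk.2
      _ ≤ ∑ k ∈ Icc 1 K0,
          (2 * VA (A3 y) z * (N / M2 y : ℝ) * ((k : ℝ) ^ 2)⁻¹ + (2 + (z : ℝ) ^ A)) :=
          sum_le_sum_of_subset_of_nonneg (filter_subset _ _) fun k _ _ => by positivity
      _ = 2 * VA (A3 y) z * (N / M2 y : ℝ) * ∑ k ∈ Icc 1 K0, ((k : ℝ) ^ 2)⁻¹ +
          K0 * (2 + (z : ℝ) ^ A) := by
          rw [sum_add_distrib, ← mul_sum, sum_const, Nat.card_Icc, nsmul_eq_mul,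
            Nat.add_sub_cancel]
      _ ≤ _ := by
          have := mul_le_mul_of_nonneg_left (sum_sq1 K0)
            (by positivity : 0 ≤ 2 * VA (A3 y) z * (N / M2 y : ℝ))
          linarith
  have h2 : ∑ k ∈ (Ioc K0 (Nat.sqrt N)).filter (fun k => Nat.Coprime k (M2 y)),
      ((Sk y N b k).card : ℝ) ≤ (N / M2 y : ℝ) / K0 + Nat.sqrt N := by
    calc _ ≤ ∑ k ∈ (Ioc K0 (Nat.sqrt N)).filter (fun k => Nat.Coprime k (M2 y)),
          ((N / M2 y : ℝ) * ((k : ℝ) ^ 2)⁻¹ + 1) :=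
          sum_le_sum fun k hk => by
            rw [mem_filter, mem_Ioc] at hk
            exact hB k (by omega) hk.2
      _ ≤ ∑ k ∈ Ioc K0 (Nat.sqrt N), ((N / M2 y : ℝ) * ((k : ℝ) ^ 2)⁻¹ + 1) :=
          sum_le_sum_of_subset_of_nonneg (filter_subset _ _) fun k _ _ => by positivity
      _ = (N / M2 y : ℝ) * ∑ k ∈ Ioc K0 (Nat.sqrt N), ((k : ℝ) ^ 2)⁻¹ +
          ((Nat.sqrt N - K0 : ℕ) : ℝ) := by
          rw [sum_add_distrib, ← mul_sum, sum_const, Nat.card_Ioc, nsmul_eq_mul, mul_one]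
      _ ≤ _ := by
          have h3 := mul_le_mul_of_nonneg_left (sum_sq2 K0 (Nat.sqrt N) hK0)
            (by positivity : 0 ≤ (N / M2 y : ℝ))
          have h4 : ((Nat.sqrt N - K0 : ℕ) : ℝ) ≤ Nat.sqrt N := by exact_mod_cast Nat.sub_le _ _
          rw [div_eq_mul_inv (N / M2 y : ℝ) (K0 : ℝ)]
          linarith
  linarith

/-- the choice of the parameters -/
theorem params (A M y : ℕ) (hM : 0 < M) : ∃ N₀ : ℕ, ∀ N : ℕ, N₀ ≤ N → ∃ z K0 : ℕ, 2 ≤ z ∧
    0 < K0 ∧ y ≤ z ∧ 1 ≤ Real.log N ∧ 1 / (32 * ((A : ℝ) + 1)) * Real.log N ≤ Real.log z ∧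
    1 + K0 * (2 + (z : ℝ) ^ A) + ((N : ℝ) / M) / K0 + Nat.sqrt N ≤
      N / (M * √(Real.log N)) := by
  have hM' : (1 : ℝ) ≤ M := by exact_mod_cast hM
  have hA : (0 : ℝ) < 1 / (16 * ((A : ℝ) + 1)) := by positivity
  have hA2 : (0 : ℝ) < 1 / (32 * ((A : ℝ) + 1)) := by positivity
  have e1 := (tendsto_rpow_atTop hA).eventually_ge_atTop ((y : ℝ) + 2)
  have e2 := (tendsto_rpow_atTop hA2).eventually_ge_atTop (2 : ℝ)
  have e3 := (isLittleO_log_rpow_atTop (by norm_num : (0 : ℝ) < 1 / 4)).bound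
    (by positivity : (0 : ℝ) < 1 / (49 * (M : ℝ) ^ 2))
  have e4 := Filter.eventually_ge_atTop (3 : ℝ)
  obtain ⟨N₀, h0⟩ := Filter.eventually_atTop.1
    (tendsto_natCast_atTop_atTop.eventually (((e1.and e2).and e3).and e4))
  refine ⟨N₀, fun N hN => ?_⟩
  obtain ⟨⟨⟨f1, f2⟩, f3⟩, f4⟩ := h0 N hN
  have hNq : (Nat.sqrt N : ℝ) ≤ √(N : ℝ) := Real.nat_sqrt_le_real_sqrt
  generalize (Nat.sqrt N : ℝ) = q at hNq ⊢
  generalize (N : ℝ) = x at *
  have hx1 : 1 ≤ x := by linarith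
  have hx0 : 0 < x := by linarith
  have hlog : 1 ≤ Real.log x := by
    rw [Real.le_log_iff_exp_le hx0]
    exact Real.exp_one_lt_d9.le.trans (by linarith)
  have hz0 : 1 ≤ ⌊x ^ (1 / (16 * ((A : ℝ) + 1)))⌋₊ := Nat.le_floor (by push_cast; linarith)
  have hz1 : (⌊x ^ (1 / (16 * ((A : ℝ) + 1)))⌋₊ : ℝ) ≤ x ^ (1 / (16 * ((A : ℝ) + 1))) :=
    Nat.floor_le (by positivity)
  have hz2 := Nat.lt_floor_add_one (x ^ (1 / (16 * ((A : ℝ) + 1))))
  have hX8 : 1 ≤ x ^ (1 / 8 : ℝ) := Real.one_le_rpow hx1 (by norm_num)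
  have hK0 : 1 ≤ ⌊x ^ (1 / 8 : ℝ)⌋₊ := Nat.le_floor (by push_cast; linarith)
  have hK0' : (1 : ℝ) ≤ ⌊x ^ (1 / 8 : ℝ)⌋₊ := by exact_mod_cast hK0
  have hK1 : (⌊x ^ (1 / 8 : ℝ)⌋₊ : ℝ) ≤ x ^ (1 / 8 : ℝ) := Nat.floor_le (by positivity)
  have hK2 := Nat.lt_floor_add_one (x ^ (1 / 8 : ℝ))
  refine ⟨⌊x ^ (1 / (16 * ((A : ℝ) + 1)))⌋₊, ⌊x ^ (1 / 8 : ℝ)⌋₊, ?_, hK0, ?_, hlog, ?_, ?_⟩
  · refine Nat.le_floor ?_
    push_cast
    have : (0 : ℝ) ≤ y := Nat.cast_nonneg y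
    linarith
  · exact Nat.le_floor (by linarith)
  · rw [← Real.log_rpow hx0]
    refine Real.log_le_log (by positivity) ?_
    have h1 : x ^ (1 / (16 * ((A : ℝ) + 1))) =
        x ^ (1 / (32 * ((A : ℝ) + 1))) * x ^ (1 / (32 * ((A : ℝ) + 1))) := by
      rw [← Real.rpow_add hx0]
      congr 1
      field_simp
      norm_num
    nlinarith
  · generalize hzz : (⌊x ^ (1 / (16 * ((A : ℝ) + 1)))⌋₊ : ℝ) = z at *
    generalize (⌊x ^ (1 / 8 : ℝ)⌋₊ : ℝ) = K at *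
    have hz0' : 0 ≤ z := by rw [← hzz]; exact Nat.cast_nonneg _
    have g1 : z ^ A ≤ x ^ (1 / 16 : ℝ) := by
      refine (pow_le_pow_left₀ hz0' hz1 A).trans ?_
      rw [← Real.rpow_natCast, ← Real.rpow_mul hx0.le]
      refine Real.rpow_le_rpow_of_exponent_le hx1 ?_
      rw [div_mul_eq_mul_div, one_mul, div_le_div_iff₀ (by positivity) (by norm_num)]
      linarith
    have g2 : 1 ≤ x ^ (1 / 16 : ℝ) := Real.one_le_rpow hx1 (by norm_num)
    have g3 : K * (2 + z ^ A) ≤ 3 * x ^ (7 / 8 : ℝ) := by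
      calc K * (2 + z ^ A) ≤ x ^ (1 / 8 : ℝ) * (3 * x ^ (1 / 16 : ℝ)) :=
            mul_le_mul hK1 (by linarith) (by positivity) (by positivity)
        _ = 3 * x ^ (3 / 16 : ℝ) := by
            rw [mul_left_comm, ← Real.rpow_add hx0]
            norm_num
        _ ≤ 3 * x ^ (7 / 8 : ℝ) :=
            mul_le_mul_of_nonneg_left (Real.rpow_le_rpow_of_exponent_le hx1 (by norm_num))
              (by norm_num)
    have g4 : x / M / K ≤ 2 * x ^ (7 / 8 : ℝ) := by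
      have h1 : x / M ≤ x := div_le_self hx0.le hM'
      have h2 : x = x ^ (7 / 8 : ℝ) * x ^ (1 / 8 : ℝ) := by
        rw [← Real.rpow_add hx0]
        norm_num
      rw [div_le_iff₀ (by linarith)]
      refine h1.trans ?_
      have h3 : x ^ (1 / 8 : ℝ) ≤ 2 * K := by linarith
      have h4 := mul_le_mul_of_nonneg_left h3 (by positivity : 0 ≤ x ^ (7 / 8 : ℝ))
      linarith
    have g5 : q ≤ x ^ (7 / 8 : ℝ) := by
      refine hNq.trans ?_
      rw [Real.sqrt_eq_rpow]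
      exact Real.rpow_le_rpow_of_exponent_le hx1 (by norm_num)
    have g6 : 1 ≤ x ^ (7 / 8 : ℝ) := Real.one_le_rpow hx1 (by norm_num)
    have g7 : 7 * x ^ (7 / 8 : ℝ) ≤ x / (M * √(Real.log x)) := by
      have h1 : x = x ^ (7 / 8 : ℝ) * x ^ (1 / 8 : ℝ) := by
        rw [← Real.rpow_add hx0]
        norm_num
      have h2 : 7 * (M : ℝ) * √(Real.log x) ≤ x ^ (1 / 8 : ℝ) := by
        refine (sq_le_sq₀ (by positivity) (by positivity)).1 ?_
        rw [mul_pow, Real.sq_sqrt (by linarith), ← Real.rpow_natCast (x ^ (1 / 8 : ℝ)),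
          ← Real.rpow_mul hx0.le]
        rw [Real.norm_of_nonneg (by linarith), Real.norm_of_nonneg (by positivity)] at f3
        have h3 : (1 / 8 : ℝ) * ((2 : ℕ) : ℝ) = 1 / 4 := by norm_num
        rw [h3]
        rw [div_mul_eq_mul_div, one_mul, le_div_iff₀ (by positivity)] at f3
        calc (7 * (M : ℝ)) ^ 2 * Real.log x = Real.log x * (49 * (M : ℝ) ^ 2) := by ring
          _ ≤ _ := f3
      have hs : 0 < √(Real.log x) := Real.sqrt_pos.2 (by linarith)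
      rw [le_div_iff₀ (by positivity)]
      calc 7 * x ^ (7 / 8 : ℝ) * (M * √(Real.log x)) =
            x ^ (7 / 8 : ℝ) * (7 * (M : ℝ) * √(Real.log x)) := by ring
        _ ≤ x ^ (7 / 8 : ℝ) * x ^ (1 / 8 : ℝ) := mul_le_mul_of_nonneg_left h2 (by positivity)
        _ = x := h1.symm
    linarith

/-- TSQ: sums of two squares in arithmetic progressions -/
theorem pf_TSQ (hSIV : T_SIV) (hVV : T_VV) : T_TSQ := by
  obtain ⟨A, hA⟩ := TS_bd hSIV
  obtain ⟨c0, Cv, -, hCv, hV⟩ := hVV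
  refine ⟨4 * Cv * √(32 * ((A : ℝ) + 1)) + 1, by positivity, fun y hy => ?_⟩
  obtain ⟨N₀, h0⟩ := params A (M2 y) y (M2_pos y)
  refine ⟨N₀, fun N b hN => ?_⟩
  obtain ⟨z, K0, hz, hK, hyz, hlog, hlz, hE⟩ := h0 N hN
  have h1 := hA y N b z K0 hz hK
  have h2 := (hV y z (by omega) hyz).2
  have hM : (0 : ℝ) < M2 y := by exact_mod_cast M2_pos y
  have hly : 1 ≤ Real.log y := by
    rw [Real.le_log_iff_exp_le (by positivity)]
    have : (3 : ℝ) ≤ y := by exact_mod_cast hy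
    exact Real.exp_one_lt_d9.le.trans (by linarith)
  have hsl : 0 < √(Real.log N) := Real.sqrt_pos.2 (by linarith)
  have hsy : 1 ≤ √(Real.log y) := Real.one_le_sqrt.2 hly
  have hlz0 : 0 < Real.log z := lt_of_lt_of_le (by positivity) hlz
  have h3 : √(Real.log y / Real.log z) ≤ √(Real.log y) * √(32 * ((A : ℝ) + 1)) / √(Real.log N) := by
    rw [le_div_iff₀ hsl, ← Real.sqrt_mul (by positivity), ← Real.sqrt_mul (by linarith)]
    refine Real.sqrt_le_sqrt ?_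
    rw [div_mul_eq_mul_div, div_le_iff₀ hlz0]
    have h4 : Real.log N ≤ 32 * ((A : ℝ) + 1) * Real.log z := by
      rw [div_mul_eq_mul_div, one_mul, div_le_iff₀ (by positivity)] at hlz
      linarith
    calc Real.log y * Real.log N ≤ Real.log y * (32 * ((A : ℝ) + 1) * Real.log z) :=
          mul_le_mul_of_nonneg_left h4 (by linarith)
      _ = _ := by ring
  have h5 : VA (A3 y) z ≤ Cv * (√(Real.log y) * √(32 * ((A : ℝ) + 1)) / √(Real.log N)) :=
    h2.trans (mul_le_mul_of_nonneg_left h3 hCv.le)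
  have h6 : 4 * VA (A3 y) z * (N / M2 y : ℝ) ≤
      4 * Cv * √(32 * ((A : ℝ) + 1)) * √(Real.log y) * N / (M2 y * √(Real.log N)) := by
    have h7 := mul_le_mul_of_nonneg_right h5 (by positivity : 0 ≤ (N / M2 y : ℝ))
    calc 4 * VA (A3 y) z * (N / M2 y : ℝ) = 4 * (VA (A3 y) z * (N / M2 y : ℝ)) := by ring
      _ ≤ 4 * (Cv * (√(Real.log y) * √(32 * ((A : ℝ) + 1)) / √(Real.log N)) *
          (N / M2 y : ℝ)) := by linarith
      _ = _ := by
          field_simp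
  have h8 : (N : ℝ) / (M2 y * √(Real.log N)) ≤ √(Real.log y) * N / (M2 y * √(Real.log N)) := by
    refine div_le_div_of_nonneg_right ?_ (by positivity)
    exact le_mul_of_one_le_left (Nat.cast_nonneg N) hsy
  have h9 : (4 * Cv * √(32 * ((A : ℝ) + 1)) + 1) * √(Real.log y) * N / (M2 y * √(Real.log N)) =
      4 * Cv * √(32 * ((A : ℝ) + 1)) * √(Real.log y) * N / (M2 y * √(Real.log N)) +
        √(Real.log y) * N / (M2 y * √(Real.log N)) := by ring
  rw [h9]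
  linarith

end Pool.Agent.H10.LCS
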